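import Pool.Agent.Q61.BS.Def

/-!
# Project BS: statements of the jobs, with proofs (MP_0b6f3a_an)

The Hausdorff dimension of the Barański sponges with `d = 2`, `A_1 = A_2 = {0,1,2,3}` and
`E = {(0,0), (1,1), (1,2), (1,3)}` is not piecewise real-analytic.  For the parameter
`par β₁ β₂` (widths `1/5`, heights `e^{-β₁}`, `e^{-β₂}`, both `< 1/5`) the dimension is
`DD β₁ β₂ = max_x FF β₁ β₂ x` (upper bound: approximate squares; lower bound: Bernoulli measures).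
With `β₂ = be2 m = log 5 log 3 / m` and `β₁ = (1+κ) β₂` this is `Φ(m) / log 5`,
`Φ(m) = max_x (H(x) + m w(x))`.  For `κ = kap x₀`, `m₀ = mz x₀` the function `H + m₀ w` has its
maximum at `x₀` and is flat of order four there, and so `Φ(m₀+μ) = Φ(m₀) + μ w(x₀) + c μ^{4/3} + …`.
In the statements `S_xxx` are propositions; a job proves `S_xxx`, possibly from others.
-/

set_option autoImplicit false

open MeasureTheory Set Filter Topology Real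

noncomputable section

namespace Pool.Agent.Q61.BS

/-! ## Coding -/

/-- **JOB REC** (0.5 h), `theorem rec1 : S_rec`.
Proof. `exp (-β) ≤ exp (-log 5) = 1/5`, so `0 < bb ≤ 1/5`, `0 ≤ hgt n ≤ (1/5)^n`; the terms of the two
series are `≥ 0` and `≤ (1/5)^n * (3/4)` (also `cl ≤ 1`), so they are summable with sums `≤ 15/16`.
The recursions: `tsum_eq_zero_add`, `hgt ω (n+1) = bb (ω 0) * hgt (sh ω) n`
(`Finset.prod_range_succ'`), `tsum_mul_left`. -/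
def S_rec : Prop := ∀ β₁ β₂ : ℝ, log 5 ≤ β₁ → log 5 ≤ β₂ →
  (∀ j, 0 < bb β₁ β₂ j ∧ bb β₁ β₂ j ≤ 1 / 5) ∧
  (∀ (ω : ℕ → Fin 4) (n : ℕ), 0 < hgt β₁ β₂ ω n ∧ hgt β₁ β₂ ω n ≤ (1 / 5) ^ n ∧
    hgt β₁ β₂ ω (n + 1) = bb β₁ β₂ (ω 0) * hgt β₁ β₂ (sh ω) n) ∧
  ∀ ω : ℕ → Fin 4,
    (Summable fun n => (1 / 5 : ℝ) ^ n * (cl (ω n) / 4)) ∧
    (Summable fun n => hgt β₁ β₂ ω n * (((ω n : ℕ) : ℝ) / 4)) ∧
    XX ω = cl (ω 0) / 4 + 1 / 5 * XX (sh ω) ∧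
    YY β₁ β₂ ω = ((ω 0 : ℕ) : ℝ) / 4 + bb β₁ β₂ (ω 0) * YY β₁ β₂ (sh ω) ∧
    0 ≤ XX ω ∧ XX ω ≤ 1 ∧ 0 ≤ YY β₁ β₂ ω ∧ YY β₁ β₂ ω ≤ 1

/-- **JOB AGR** (0.4 h), `theorem agr (h : S_rec) : S_agr`.
Proof. Induction on `n` for all `ω`, `ω'`. For `n = 0` both numbers are in `[0,1]`. Step: `ω 0 = ω' 0`
(the same column), and by the recursion `|YY ω - YY ω'| = bb (ω 0) * |YY (sh ω) - YY (sh ω')| ≤
bb (ω 0) * hgt (sh ω) n = hgt ω (n+1)`. The same for `XX`, since `cl (ω 0) = cl (ω' 0)`. -/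
def S_agr : Prop := ∀ β₁ β₂ : ℝ, log 5 ≤ β₁ → log 5 ≤ β₂ → ∀ (ω ω' : ℕ → Fin 4) (n : ℕ),
  ((∀ k < n, ω k = ω' k) → |YY β₁ β₂ ω - YY β₁ β₂ ω'| ≤ hgt β₁ β₂ ω n) ∧
  ((∀ k < n, (ω k = 0 ↔ ω' k = 0)) → |XX ω - XX ω'| ≤ (1 / 5) ^ n)

/-- **JOB SEP** (0.5 h), `theorem sep (h : S_rec) : S_sep`.
Proof. Induction on `n` for all `ω`, `ω'`. By the recursion `YY ω ∈ [ω 0 / 4, ω 0 / 4 + 1/5]`
(because `0 ≤ bb * YY ≤ 1/5`), so if `ω 0 ≠ ω' 0` then `|YY ω - YY ω'| ≥ 1/4 - 1/5 = 1/20 ≥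
1/20 * hgt ω n` (`hgt ≤ 1`): contradiction. So `ω 0 = ω' 0`; this is the case `n = 0`. Step:
`|YY ω - YY ω'| = bb (ω 0) * |YY (sh ω) - YY (sh ω')| < 1/20 * (bb (ω 0) * hgt (sh ω) n)`; divide by
`bb (ω 0) > 0` and use the induction hypothesis for the shifted sequences. The same for `XX` with
`cl ∈ {0,1}` and `1/5`. -/
def S_sep : Prop := ∀ β₁ β₂ : ℝ, log 5 ≤ β₁ → log 5 ≤ β₂ → ∀ (ω ω' : ℕ → Fin 4) (n : ℕ),
  (|YY β₁ β₂ ω - YY β₁ β₂ ω'| < 1 / 20 * hgt β₁ β₂ ω n → ∀ k ≤ n, ω k = ω' k) ∧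
  (|XX ω - XX ω'| < 1 / 20 * (1 / 5) ^ n → ∀ k ≤ n, (ω k = 0 ↔ ω' k = 0))

/-- **JOB HGT** (0.2 h), `theorem hgt1 : S_hgt`.
Proof. Induction on `n`: `zc ω (n+1) = zc ω n + 1` if `ω n = 0` and `= zc ω n` otherwise. -/
def S_hgt : Prop := ∀ (β₁ β₂ : ℝ) (ω : ℕ → Fin 4) (n : ℕ), zc ω n ≤ n ∧
  hgt β₁ β₂ ω n = exp (-sc β₁ β₂ n (zc ω n))

/-- **JOB LIM** (1 h), `theorem lim1 (h : S_rec) : S_lim`.
Proof. (1) `e ∈ E0 ↔ ∃ j, e = em j` (`Fin` case check). So the sequences `η` in `E0` are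
`η n = em (ω n)` with `ω : ℕ → Fin 4`. (2) By induction on `n`, for all `x`:
`(comp (par β₁ β₂) (em ∘ ω) n x) 0 = ∑ k<n, (1/5)^k * (cl (ω k)/4) + (1/5)^n * x 0` and
`(comp … n x) 1 = ∑ k<n, hgt ω k * (ω k / 4) + hgt ω n * x 1` (the new map is the innermost one; the
digit of `em j` in coordinate `0` is `0` or `1` as a natural number, that is `cl j`).
(3) With `x = 0` and `Summable.hasSum.tendsto_sum_nat` the limit is `![XX ω, YY ω]`; limits are unique.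
So `Lam E0 (par β₁ β₂)` is the image of `range (pt β₁ β₂)` under the map
`p ↦ toLp 2 ![p.1, p.2]`, a linear homeomorphism `ℝ × ℝ ≃L EuclideanSpace ℝ (Fin 2)`
(for example via `ContinuousLinearEquiv.finTwoArrow` and `EuclideanSpace.equiv`);
`ContinuousLinearEquiv.dimH_image`. -/
def S_lim : Prop := ∀ β₁ β₂ : ℝ, log 5 ≤ β₁ → log 5 ≤ β₂ →
  dimH (Lam E0 (par β₁ β₂)) = dimH (range (pt β₁ β₂))

/-! ## The lower bound -/

/-- **JOB MEA** (1 h), `theorem mea : S_mea`.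
Proof. Let `p` be the measure `x δ_0 + (1-x)/3 (δ_1 + δ_2 + δ_3)` on `Fin 4` and
`μ = Measure.infinitePi (fun _ => p)`. The set is the box `{ω' | ∀ k < m, ω' k ∈ A_k}` with
`A_k = {ω k}` for `k < n`, and for `n ≤ k < m`: `A_k = {0}` if `ω k = 0`, `A_k = {0}ᶜ` otherwise; its
measure is `∏ p(A_k)` (`Measure.infinitePi_pi` or the cylinder lemma), `p(A_k)` is `x` if `ω k = 0`, and
otherwise `(1-x)/3` for `k < n`, `1-x` for `n ≤ k < m`. The product over `k < m` is the asserted number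
(induction on `m` and `n`, or `Finset.prod_ite`). The law of large numbers:
`ProbabilityTheory.strong_law_ae_real` for `X_k ω = if ω k = 0 then 1 else 0`, which are bounded,
independent (`iIndepFun_infinitePi`) and identically distributed with mean `x`;
`∑ k<n, X_k ω = zc ω n`. -/
def S_mea : Prop := ∀ x ∈ Ioo (0 : ℝ) 1, ∃ μ : Measure (ℕ → Fin 4), IsProbabilityMeasure μ ∧
  (∀ (ω : ℕ → Fin 4) (n m : ℕ), n ≤ m →
    μ {ω' | (∀ k < n, ω' k = ω k) ∧ ∀ k < m, (ω' k = 0 ↔ ω k = 0)} =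
      ENNReal.ofReal (x ^ zc ω m * (1 - x) ^ (m - zc ω m) * (1 / 3) ^ (n - zc ω n))) ∧
  ∀ᵐ ω ∂μ, Tendsto (fun n : ℕ => (zc ω n : ℝ) / n) atTop (𝓝 x)

/-- **JOB MDP** (0.7 h), `theorem mdp : S_mdp`. The mass distribution principle.
Proof. Let `G N = {ω | ∀ ρ, 0 < ρ → ρ < 1/(N+1) → μ {ω' | dist (f ω') (f ω) ≤ ρ} ≤ ofReal (ρ^s)}`. It
increases with `N` and its union has full measure, so `μ (G N) > 0` for some `N` (if all are null, the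
union is null: `measure_iUnion_null`). Claim: `μ (G N) ≤ μH[s] (f '' G N)`. By
`hausdorffMeasure_apply` it is enough: for every cover `t` of `f '' G N` with all
`ediam (t k) ≤ ofReal (1/(2(N+1)))`, `μ (G N) ≤ ∑' k, ⨆ _ : (t k).Nonempty, ediam (t k)^s`. We have
`G N ⊆ ⋃ k, G N ∩ f⁻¹ (t k)`, so it is enough that `μ (G N ∩ f⁻¹ (t k)) ≤ ediam (t k)^s` if this set is
not empty. Take `ω` in it, `D = diam (t k)`; for `ω'` in it `dist (f ω') (f ω) ≤ D`. If `D > 0` use the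
definition of `G N` with `ρ = D`. If `D = 0` use all small `ρ > 0` and let `ρ → 0`: the measure is `0`.
So `μH[s] (range f) ≠ 0` and `le_dimH_of_hausdorffMeasure_ne_zero` (with `s.toNNReal`) gives the
claim. No measurability of `f` or of `G N` is needed. -/
def S_mdp : Prop := ∀ (μ : Measure (ℕ → Fin 4)) (f : (ℕ → Fin 4) → ℝ × ℝ) (s : ℝ),
  IsProbabilityMeasure μ → 0 < s →
  (∀ᵐ ω ∂μ, ∃ ρ₀ > 0, ∀ ρ : ℝ, 0 < ρ → ρ < ρ₀ →
    μ {ω' | dist (f ω') (f ω) ≤ ρ} ≤ ENNReal.ofReal (ρ ^ s)) →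
  ENNReal.ofReal s ≤ dimH (range f)

/-- **JOB EST** (1 h), `theorem est (h : S_hgt) : S_est`.
Proof. Let `L = log 5`, `χ = x β₁ + (1-x) β₂ > L`, `H = binEntropy x = -x log x - (1-x) log (1-x)`. For
`ρ < 1/20` let `m` be the largest natural number with `ρ < 1/20 * (1/5)^m` and `n` the largest one with
`ρ < 1/20 * hgt ω n` (`hgt ω n = exp (-sc n (zc ω n)) ≤ (1/5)^n → 0`, it is decreasing in `n`; for
example `n = Nat.findGreatest` or `Nat.find` of the first failure minus one). Since `hgt ω n ≤ (1/5)^n`,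
`n ≤ m`. Put `R = -log ρ`. By maximality `R ≤ (m+1) L + log 20` and
`R ≤ sc (n+1) (zc ω (n+1)) + log 20`. Let `η > 0` be small. For `ρ` small `n` and `m` are large
(`R ≤ max(β₁,β₂) (n+1) + log 20`), so `zc ω k = (x ± η) k` for `k = n, n+1, m`, and
`R ≤ (χ + C η)(n+1) + log 20`. The logarithm of the product is
`zc_m log x + (m - zc_m) log (1-x) - (n - zc_n) log 3 ≤ -m (H - C η) - n ((1-x) log 3 - C η)`
and `m ≥ (R - log 20)/L - 1`, `n ≥ (R - log 20)/(χ + C η) - 1`, so it is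
`≤ -R (H/L + (1-x) log 3/χ - C' η) + C''`, which is `≤ -R s = log (ρ^s)` for small `η` and then large
`R`, since `s < FF β₁ β₂ x`. (A soft way: if not, there is a sequence `ρ_j → 0` of counterexamples;
divide by `R_j` and pass to the limit with `m_j L / R_j → 1`, `n_j χ / R_j → 1`, `zc_m/m → x`,
`zc_n/n → x`. It may be easiest to prove first, as `ρ → 0+` with these `m(ρ)`, `n(ρ)`:
`m(ρ)/R → 1/L`, `n(ρ)/R → 1/χ`, hence `-log (product)/R → FF β₁ β₂ x > s`.) -/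
def S_est : Prop := ∀ β₁ β₂ : ℝ, log 5 < β₁ → log 5 < β₂ → ∀ x ∈ Ioo (0 : ℝ) 1,
  ∀ ω : ℕ → Fin 4, Tendsto (fun n : ℕ => (zc ω n : ℝ) / n) atTop (𝓝 x) →
  ∀ s, 0 < s → s < FF β₁ β₂ x → ∃ ρ₀ > 0, ∀ ρ : ℝ, 0 < ρ → ρ < ρ₀ → ∃ n m : ℕ, n ≤ m ∧
    ρ < 1 / 20 * (1 / 5) ^ m ∧ ρ < 1 / 20 * hgt β₁ β₂ ω n ∧
    x ^ zc ω m * (1 - x) ^ (m - zc ω m) * (1 / 3) ^ (n - zc ω n) ≤ ρ ^ s

/-- **JOB LOW** (0.7 h), `theorem low (h : S_mea) (h1 : S_mdp) (h2 : S_est) (h3 : S_sep) : S_low`.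
Proof. Let first `0 < x < 1`; `FF β₁ β₂ x > 0`. For `0 < s < FF β₁ β₂ x` and the measure `μ` of `S_mea`:
for almost every `ω` and all small `ρ` take `n ≤ m` from `S_est`. If `dist (pt ω') (pt ω) ≤ ρ` then
`|XX ω - XX ω'| ≤ ρ < 1/20 (1/5)^m` and `|YY ω - YY ω'| ≤ ρ < 1/20 hgt ω n`, so by `S_sep` `ω'` is in the
set of `S_mea` and the measure is `≤ ofReal (ρ^s)`. `S_mdp` gives `ofReal s ≤ dimH`; let `s ↑ FF x`.
For `x = 0` and `x = 1`: `FF β₁ β₂` is continuous on `[0,1]` (the denominator is positive), so take the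
limit of the inequality (`ENNReal.ofReal` is continuous). -/
def S_low : Prop := ∀ β₁ β₂ : ℝ, log 5 < β₁ → log 5 < β₂ → ∀ x ∈ Icc (0 : ℝ) 1,
  ENNReal.ofReal (FF β₁ β₂ x) ≤ dimH (range (pt β₁ β₂))

/-! ## The upper bound -/

/-- The word `τ` of length `m`, continued by `0`. -/
def ex {m : ℕ} (τ : Fin m → Fin 4) : ℕ → Fin 4 := fun k => if h : k < m then τ ⟨k, h⟩ else 0

/-- The codes of the approximate squares of level `n` with `i` zeros among the first `n` symbols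
(the symbols with `n ≤ k < m` only carry the column), with the condition of goodness. -/
def TT (β₁ β₂ θ : ℝ) (n i : ℕ) : Set (Fin (mm β₁ β₂ n i) → Fin 4) :=
  {τ | zc (ex τ) n = i ∧
    (∀ k, n ≤ k → k < mm β₁ β₂ n i → (ex τ k = 0 ∨ ex τ k = 1)) ∧
    (mm β₁ β₂ n i : ℝ) * binEntropy ((zc (ex τ) (mm β₁ β₂ n i) : ℝ) / mm β₁ β₂ n i) +
      ((n : ℝ) - i) * log 3 ≤ θ * (mm β₁ β₂ n i * log 5)}

/-- The approximate square with the code `τ`: its first `n` symbols agree with `τ`, and its first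
`m` columns. -/
def Sq (n m : ℕ) (τ : ℕ → Fin 4) : Set (ℕ → Fin 4) :=
  {ω | (∀ k < n, ω k = τ k) ∧ ∀ k < m, (ω k = 0 ↔ τ k = 0)}

/-- **JOB CNT** (0.8 h), `theorem cnt : S_cnt`.
Proof. Let `x = i'/m ∈ [0,1]` (if `i' > m` the set is empty since `zc ≤ m`). Give the symbol `j` at the
place `k < m` the weight `w_k(0) = x`, and for `j ≠ 0`: `w_k(j) = (1-x)/3` if `k < n`; `w_k(1) = 1-x`,
`w_k(2) = w_k(3) = 0` if `n ≤ k`. Then `∑_j w_k(j) = 1` and so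
`∑_τ ∏_k w_k(τ_k) = ∏_k ∑_j w_k(j) = 1` (`Finset.prod_univ_sum`/`Fintype.piFinset_univ`). All terms are
`≥ 0`, and for `τ` in the set the product is `x^{i'} (1-x)^{m-i'} (1/3)^{n-i}` (with `0^0 = 1`), which is
`exp (-m binEntropy x - (n-i) log 3)`: for `0 < x < 1` by the definition of `binEntropy`
(`x^{i'} = exp (m x log x)`), for `x = 0`, `i' = 0`, and for `x = 1`, `i' = m`, both are checked by hand.
So the number of elements times this number is `≤ 1`. -/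
def S_cnt : Prop := ∀ n m i i' : ℕ, n ≤ m → 1 ≤ m →
  (Nat.card {τ : Fin m → Fin 4 // zc (ex τ) n = i ∧ zc (ex τ) m = i' ∧
    ∀ k, n ≤ k → k < m → (ex τ k = 0 ∨ ex τ k = 1)} : ℝ) ≤
  exp (m * binEntropy ((i' : ℝ) / m) + ((n : ℝ) - i) * log 3)

/-- **JOB MMN** (0.2 h), `theorem mmn : S_mmn`.
Proof. `sc n i ≥ n * min β₁ β₂ ≥ n log 5` for `i ≤ n`; `Nat.floor_le`, `Nat.lt_floor_add_one`,
`Nat.le_floor`. -/
def S_mmn : Prop := ∀ β₁ β₂ : ℝ, log 5 < β₁ → log 5 < β₂ → ∀ n i : ℕ, i ≤ n →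
  n ≤ mm β₁ β₂ n i ∧ (mm β₁ β₂ n i : ℝ) * log 5 ≤ sc β₁ β₂ n i ∧
  sc β₁ β₂ n i ≤ (mm β₁ β₂ n i + 1) * log 5

/-- **JOB TCT** (0.4 h), `theorem tct (h : S_cnt) (h1 : S_mmn) (h2 : S_hgt) : S_tct`.
Proof. Let `m = mm n i ≥ n ≥ 1`. `TT` is the union over `i' = 0,…,m` of its parts with
`zc (ex τ) m = i'` (`zc ≤ m` by `S_hgt`). A part which is not empty has at most
`exp (m binEntropy (i'/m) + (n-i) log 3) ≤ exp (θ (m log 5))` elements by `S_cnt` and the third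
condition of `TT`. -/
def S_tct : Prop := ∀ β₁ β₂ θ : ℝ, log 5 < β₁ → log 5 < β₂ → ∀ n i : ℕ, 1 ≤ n → i ≤ n →
  (Nat.card (TT β₁ β₂ θ n i) : ℝ) ≤ (mm β₁ β₂ n i + 1) * exp (θ * (mm β₁ β₂ n i * log 5))

/-- **JOB INF** (0.8 h), `theorem inf1 (h : S_mmn) (h1 : S_hgt) : S_inf`.
Proof. Let `L = log 5`, `z n = zc ω n`, `m n = mm n (z n) ≥ n`, `x_n = z n / n ∈ [0,1]`,
`h(x) = binEntropy x / L`, `t(x) = (1-x) log 3/(x β₁ + (1-x) β₂)`, so `h + t = FF ≤ DD` on `[0,1]`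
(`FF` is bounded above there: `binEntropy ≤ log 2`, `0 ≤ t ≤ log 3 / L`; `le_csSup`). For `n ≥ 1`:
`(n - z n) log 3 = sc n (z n) * t(x_n) ≤ (m n + 1) L t(x_n)`. Suppose that the inequality fails for all
`n ≥ N ≥ 1`. Then `m h(x_m) L + (m+1) L t(x_n) > (DD + δ) m L` with `m = m n`, so
`h(x_m) > DD + δ - t(x_n) - t(x_n)/m ≥ h(x_n) + δ - t(x_n)/m ≥ h(x_n) + δ/2` as soon as
`m ≥ n ≥ 2 (log 3/L)/δ`. Start with a large `n_0 ≥ N` and iterate `n_{k+1} = m n_k ≥ n_k`: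
`h(x_{n_k}) ≥ h(x_{n_0}) + k δ/2`, which contradicts `0 ≤ h ≤ log 2/L`. -/
def S_inf : Prop := ∀ β₁ β₂ : ℝ, log 5 < β₁ → log 5 < β₂ → ∀ δ : ℝ, 0 < δ →
  ∀ ω : ℕ → Fin 4, ∃ᶠ n in atTop,
    (mm β₁ β₂ n (zc ω n) : ℝ) *
      binEntropy ((zc ω (mm β₁ β₂ n (zc ω n)) : ℝ) / mm β₁ β₂ n (zc ω n)) +
      ((n : ℝ) - zc ω n) * log 3 ≤
    (DD β₁ β₂ + δ) * (mm β₁ β₂ n (zc ω n) * log 5)

/-- **JOB HLS** (0.6 h), `theorem hls : S_hls`.
Proof. `hausdorffMeasure_le_liminf_tsum` with `l = atTop` on `ℕ`, `r N = ofReal ((1/5)^N)`, the index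
type `Σ n, J n` (countable) and `t N ⟨n, j⟩ = if N ≤ n then U n j else ∅`: the diameters are
`≤ r n ≤ r N`, the sets cover `G` for every `N`, and
`∑' ediam^s ≤ ∑'_{n ≥ N} ofReal (a n) → 0` as `N → ∞` (`ENNReal.tsum_sigma'`,
`ediam ∅ ^ s = 0 ^ s = 0`, the tails of a summable series tend to `0`; or bound the liminf by
`ofReal (∑' n, a (n+N))`). -/
def S_hls : Prop := ∀ (G : Set (ℝ × ℝ)) (s : ℝ) (J : ℕ → Type) (_ : ∀ n, Fintype (J n))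
  (U : (n : ℕ) → J n → Set (ℝ × ℝ)) (a : ℕ → ℝ), 0 < s → Summable a → (∀ n, 0 ≤ a n) →
  (∀ n j, Metric.ediam (U n j) ≤ ENNReal.ofReal ((1 / 5) ^ n)) →
  (∀ n, 1 ≤ n → ∑ j, Metric.ediam (U n j) ^ s ≤ ENNReal.ofReal (a n)) →
  (∀ x ∈ G, ∃ᶠ n in atTop, ∃ j, x ∈ U n j) → Measure.hausdorffMeasure s G = 0

/-- **JOB DIA** (0.4 h), `theorem dia (h : S_agr) (h1 : S_mmn) (h2 : S_hgt) (h3 : S_rec) : S_dia`.
Proof. Let `m = mm n i`. For `ω, ω'` in `Sq n m τ`: they agree on `[0,n)` and in the columns on `[0,m)`,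
so `|XX ω - XX ω'| ≤ (1/5)^m` and `|YY ω - YY ω'| ≤ hgt ω n = exp (-sc n (zc ω n))`, where
`zc ω n = zc τ n = i`, and `sc n i ≥ m log 5`. So the distance is `≤ (1/5)^m`
(`exp (-m log 5) = (1/5)^m`). `Metric.ediam_le`/`EMetric.diam_le`-type lemma. -/
def S_dia : Prop := ∀ β₁ β₂ : ℝ, log 5 < β₁ → log 5 < β₂ → ∀ (n i : ℕ) (τ : ℕ → Fin 4), i ≤ n →
  zc τ n = i →
  Metric.ediam (pt β₁ β₂ '' Sq n (mm β₁ β₂ n i) τ) ≤ ENNReal.ofReal ((1 / 5) ^ mm β₁ β₂ n i)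

/-- **JOB COV** (0.4 h), `theorem cov (h : S_mmn) (h1 : S_hgt) : S_cov`.
Proof. `τ k = ω k` for `k < n`, `τ k = if ω k = 0 then 0 else 1` for `n ≤ k < m`, `m = mm n (zc ω n)`,
which is `≥ n`. Then `zc (ex τ) n = zc ω n` and `zc (ex τ) m = zc ω m`. -/
def S_cov : Prop := ∀ β₁ β₂ θ : ℝ, log 5 < β₁ → log 5 < β₂ → ∀ (ω : ℕ → Fin 4) (n : ℕ),
  (mm β₁ β₂ n (zc ω n) : ℝ) *
      binEntropy ((zc ω (mm β₁ β₂ n (zc ω n)) : ℝ) / mm β₁ β₂ n (zc ω n)) +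
      ((n : ℝ) - zc ω n) * log 3 ≤ θ * (mm β₁ β₂ n (zc ω n) * log 5) →
  ∃ τ ∈ TT β₁ β₂ θ n (zc ω n), ω ∈ Sq n (mm β₁ β₂ n (zc ω n)) (ex τ)

/-- **JOB SUM** (0.5 h), `theorem sum1 (h : S_tct) (h1 : S_mmn) : S_sum`.
Proof. Let `L = log 5`, `m = mm n i ≥ n`. By `S_tct` the term is at most
`(m+1) exp (θ m L) exp (-(θ+δ) m L) = (m+1) exp (-δ L m)`. There is `K` with
`(m+1) exp (-δ L m) ≤ K exp (-δ L m/2)` for all `m` (`u exp (-c u)` is bounded), and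
`exp (-δ L m/2) ≤ exp (-δ L n/2)`. So take `a n = (n+1) K exp (-δ L/2)^n`, which is summable
(`summable_pow_mul_geometric_of_norm_lt_one`). -/
def S_sum : Prop := ∀ β₁ β₂ θ δ : ℝ, log 5 < β₁ → log 5 < β₂ → 0 < δ →
  ∃ a : ℕ → ℝ, Summable a ∧ (∀ n, 0 ≤ a n) ∧ ∀ n, 1 ≤ n →
    ∑ i ∈ Finset.range (n + 1), (Nat.card (TT β₁ β₂ θ n i) : ℝ) *
      ((1 / 5 : ℝ) ^ (mm β₁ β₂ n i)) ^ (θ + δ) ≤ a n

/-- **JOB UPP** (0.8 h), `theorem upp (h : S_inf) (h1 : S_hls) (h2 : S_dia) (h3 : S_cov)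
(h4 : S_sum) (h5 : S_mmn) (h6 : S_hgt) : S_upp`.
Proof. `DD ≥ FF 0 ≥ 0` (`le_csSup`; `FF` is bounded above on `[0,1]`: `binEntropy ≤ log 2`). Let
`δ > 0`, `θ = DD + δ`, `s = θ + δ > 0`. `J n = Σ i : Fin (n+1), TT β₁ β₂ θ n i` (finite), and
`U n ⟨i, τ⟩ = pt '' Sq n (mm n i) (ex τ)`. By `S_dia` the diameters are
`≤ (1/5)^(mm n i) ≤ (1/5)^n` (`n ≤ mm n i`; `zc (ex τ) n = i` by the definition of `TT`), the sum of the
powers is bounded by the sum of `S_sum`, and `S_inf` with `S_cov` shows that every point of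
`range pt` is in some `U n j` for infinitely many `n`. So `μH[s] (range pt) = 0` by `S_hls`,
`dimH ≤ ofReal s` (`dimH_le_of_hausdorffMeasure_ne_top` with `s.toNNReal`), `s = DD + 2δ`, `δ → 0`. -/
def S_upp : Prop := ∀ β₁ β₂ : ℝ, log 5 < β₁ → log 5 < β₂ →
  dimH (range (pt β₁ β₂)) ≤ ENNReal.ofReal (DD β₁ β₂)

/-! ## The function `Φ` -/

/-- **JOB PHI** (0.4 h), `theorem phi1 : S_phi`.
Proof. `be2 m = log 5 log 3/m > log 5` since `m < log 3`, and `(1+κ) be2 m > be2 m`. For `x ∈ [0,1]`: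
`x (1+κ) be2 m + (1-x) be2 m = be2 m (1 + κ x)`, so
`FF ((1+κ) be2 m) (be2 m) x = (binEntropy x + m ww κ x)/log 5`; the supremum of the image
commutes with the multiplication by `1/log 5 > 0` (`Real.sSup_smul_of_nonneg` or by hand). -/
def S_phi : Prop := ∀ κ m : ℝ, 0 < κ → 0 < m → m < log 3 →
  log 5 < (1 + κ) * be2 m ∧ log 5 < be2 m ∧
  DD ((1 + κ) * be2 m) (be2 m) = Phi κ m / log 5

/-- **JOB XZE** (0.4 h), `theorem xze : S_xze`.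
Proof. Intermediate value theorem on `[1/10, 1/8]` for the continuous function
`log ((1-x)/x) - 3/(2(1-2x))`: at `1/10` it is `log 9 - 15/8 = 2 log 3 - 15/8 > 0`
(`log 3 > 1` since `e < 3`), at `1/8` it is `log 7 - 2 < 0` (`7 < e²`). For the second part, `x` in
`(1/10, 1/8)`: all factors are positive, and `27 x (1-x) ≤ 27 * (1/8) * (7/8) < 3.0`,
`2 (1-2x)(2-x)(1+x) ≥ 2 * (3/4) * (15/8) * (11/10) > 3.0`. And `1 < log 3`. -/
def S_xze : Prop := (∃ x ∈ Ioo (1 / 10 : ℝ) (1 / 8), log ((1 - x) / x) = 3 / (2 * (1 - 2 * x))) ∧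
  (∀ x ∈ Ioo (1 / 10 : ℝ) (1 / 8), 0 < kap x ∧ 0 < mz x ∧ mz x < 1) ∧ 1 < log 3

/-- **JOB DER** (0.6 h), `theorem der : S_der`.
Proof. Let `κ = kap x₀`, `m = mz x₀`, `M = (1+κ) m`. `(ww κ)'(x) = -(1+κ)/(1+κx)²` and
`hasDerivAt_binEntropy`, so the derivative of `A(x) = binEntropy x + m ww κ x` is
`B x = log (1-x) - log x - M/(1+κx)²`, and `B' x = -1/(x(1-x)) + 2κM/(1+κx)³`, which is
`-((1+κx)³ - 2κM x(1-x))/(x(1-x)(1+κx)³)`. The algebra (`field_simp; ring`):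
`1+κ = (1-x₀²)/(x₀(2-x₀))`, `1+κx₀ = 3(1-x₀)/(2-x₀)`, `M = 27(1-x₀)²/(2(1-2x₀)(2-x₀)²)`, and for all `x`
`(1+κx)³ - 2κM x(1-x) = κ³ (x-x₀)² (x + 1/(κ³x₀²))`. `B x₀ = 0` because
`M/(1+κx₀)² = 3/(2(1-2x₀)) = log ((1-x₀)/x₀)`. -/
def S_der : Prop := ∀ x₀ ∈ Ioo (1 / 10 : ℝ) (1 / 8),
  log ((1 - x₀) / x₀) = 3 / (2 * (1 - 2 * x₀)) → ∃ B : ℝ → ℝ,
    (∀ x ∈ Ioo (0 : ℝ) 1, HasDerivAt (fun y => binEntropy y + mz x₀ * ww (kap x₀) y) (B x) x) ∧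
    (∀ x ∈ Ioo (0 : ℝ) 1, HasDerivAt B (-(kap x₀ ^ 3 * (x - x₀) ^ 2 *
      (x + 1 / (kap x₀ ^ 3 * x₀ ^ 2)) / (x * (1 - x) * (1 + kap x₀ * x) ^ 3))) x) ∧
    B x₀ = 0

/-- **JOB TOP** (0.8 h), `theorem top1 (h : S_der) (h1 : S_xze) : S_top`.
Proof. `κ > 0`, so the derivative of `B` on `(0,1)` is `≤ 0`, and `< 0` except at `x₀`: `B` is strictly
decreasing on `(0,1)` (`strictAntiOn` on `(0,x₀]` and on `[x₀,1)`), so `B > 0` on `(0,x₀)`, `B < 0` on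
`(x₀,1)`. `A` is continuous on `[0,1]` (`binEntropy_continuous`, `1+κx > 0`), so it is strictly
increasing on `[0,x₀]` and strictly decreasing on `[x₀,1]`: the first claim. Second claim: on
`|x-x₀| ≤ 1/20` the derivative of `B` is `≥ -C (x-x₀)²` for some `C`
(a continuous factor on a compact interval); so `B x ≥ -C (x-x₀)³/3` for `x ≥ x₀` and
`B x ≤ C (x₀-x)³/3` for `x ≤ x₀` (compare derivatives), so `A x ≥ A x₀ - C (x-x₀)⁴/12`. -/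
def S_top : Prop := ∀ x₀ ∈ Ioo (1 / 10 : ℝ) (1 / 8),
  log ((1 - x₀) / x₀) = 3 / (2 * (1 - 2 * x₀)) →
    (∀ x ∈ Icc (0 : ℝ) 1, x ≠ x₀ → binEntropy x + mz x₀ * ww (kap x₀) x <
      binEntropy x₀ + mz x₀ * ww (kap x₀) x₀) ∧
    ∃ C r : ℝ, 0 < C ∧ 0 < r ∧ ∀ x, |x - x₀| < r →
      binEntropy x₀ + mz x₀ * ww (kap x₀) x₀ - C * (x - x₀) ^ 4 ≤
        binEntropy x + mz x₀ * ww (kap x₀) x

/-- **JOB SNG** (1 h), `theorem sng (h : S_top) (h1 : S_xze) : S_sng`.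
Proof. Write `κ = kap x₀`, `m₀ = mz x₀`, `w = ww κ`, `A = binEntropy + m₀ w`, `P = Phi κ`; `0 ≤ w ≤ 1` on
`[0,1]`, `w` is continuous there and has a negative derivative at `x₀`. `P m₀ = A x₀`. All sets in the
suprema are bounded. (i) `P (m₀+μ) ≤ A x₀ + μ w(x₀) + ε μ` for all small `μ > 0`, for each `ε > 0`:
choose `d > 0` with `|w(x) - w(x₀)| ≤ ε` for `|x-x₀| < d`; on the compact set `|x-x₀| ≥ d` of `[0,1]`
`A ≤ A x₀ - c` with some `c > 0` (maximum of a continuous function), so there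
`A x + μ w(x) ≤ A x₀ - c + μ ≤ A x₀` if `μ ≤ c`; for `|x-x₀| < d`,
`A x + μ w x ≤ A x₀ + μ w(x₀) + ε μ`. (ii) for every `K > 0`:
`P (m₀+μ) ≥ A x₀ + μ w(x₀) + K μ²` for small `μ > 0`: there are `c' > 0`, `r' > 0` with
`w(x₀-η) ≥ w(x₀) + c' η` for `0 < η < r'`; take `η = ((K+1)/c') μ`, then
`A(x₀-η) + μ w(x₀-η) ≥ A x₀ - C η⁴ + μ w(x₀) + c' η μ` and `C η⁴ ≤ μ²` for small `μ`.
(iii) Let `g` be as in the statement; `G = g log 5` is analytic at `m₀`, so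
`G(m₀+μ) = G(m₀) + G'(m₀) μ + O(μ²)`. For the `μ` with `G(m₀+μ) = P(m₀+μ)`, `P m₀ = A x₀ = G(m₀)`:
(i) and (ii) give `G'(m₀) = w(x₀)` (divide by `μ`, let `μ → 0` along the frequent set), then (ii) gives
`O(μ²) ≥ K μ²` for every `K`, a contradiction. -/
def S_sng : Prop := ∀ x₀ ∈ Ioo (1 / 10 : ℝ) (1 / 8),
  log ((1 - x₀) / x₀) = 3 / (2 * (1 - 2 * x₀)) → ¬ ∃ g : ℝ → ℝ, AnalyticAt ℝ g (mz x₀) ∧
    g (mz x₀) = Phi (kap x₀) (mz x₀) / log 5 ∧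
    ∃ᶠ m in 𝓝[>] (mz x₀), g m = Phi (kap x₀) m / log 5

/-! ## Parameters and pieces -/

/-- **JOB PTH** (0.7 h), `theorem pth (h : S_phi) : S_pth`.
Proof. Analyticity: in the product space it is enough for each entry (`analyticAt_pi_iff` twice,
`AnalyticAt.prod`): the entries are constants or `exp (-(c * (log 5 * log 3 / m)))`, analytic at
`m₀ ≠ 0`. Membership: `0 < bb ≤ 1/5` (`exp (-β) < exp (-log 5) = 1/5` by `S_phi`), so every map is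
`x ↦ r x + a/4` with `0 < r ≤ 1/5` and maps `[0,1]` onto `[a/4, a/4 + r] ⊆ [a/4, a/4 + 1/5]`,
`a = 0,1,2,3`: these four intervals are disjoint and contained in `[0,1]`. The last claim:
`Ioo ⊆ Icc`. -/
def S_pth : Prop := (∀ κ m₀ : ℝ, 0 < κ → 0 < m₀ →
    AnalyticAt ℝ (fun m : ℝ => par ((1 + κ) * be2 m) (be2 m)) m₀) ∧
  (∀ κ m : ℝ, 0 < κ → 0 < m → m < log 3 →
    par ((1 + κ) * be2 m) (be2 m) ∈ SBar 2 (fun _ => Fin 4)) ∧
  SBar 2 (fun _ => Fin 4) ⊆ Bar 2 (fun _ => Fin 4)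

/-- **JOB PWA** (0.7 h), `theorem pwa : S_pwa`.
Proof. Let `P : ι → Set S` be the pieces. By local finiteness at `c m₀ ∈ S` there is a neighbourhood
`N` of it in `S` which meets `P i` only for `i` in a finite set `I`. For `m > m₀` near `m₀`:
`c m ∈ S` and it is in `N` (continuity of `c`), so it is in some `P i`, `i ∈ I`. So some `i ∈ I` has
`∃ᶠ m in 𝓝[>] m₀, c m ∈ P i` (`Filter.frequently_bUnion`-type argument: a finite disjunction which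
holds eventually has a frequent member). `P i` is closed in `S`, so `c m₀ ∈ P i`. `RealAnOn` at `c m₀`
gives `U ∈ 𝓝 (c m₀)` and `G` analytic at `c m₀` with `F = G` on `P i ∩ U`; `g = G ∘ c`
(`AnalyticAt.comp`). The second claim: one piece `P = univ`. -/
def S_pwa : Prop := (∀ (V : Type) (_ : NormedAddCommGroup V) (_ : NormedSpace ℝ V) (F : V → ℝ)
    (S : Set V) (c : ℝ → V) (m₀ : ℝ), PwAnOn F S → AnalyticAt ℝ c m₀ → c m₀ ∈ S →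
    (∀ᶠ m in 𝓝[>] m₀, c m ∈ S) →
    ∃ g : ℝ → ℝ, AnalyticAt ℝ g m₀ ∧ g m₀ = F (c m₀) ∧ ∃ᶠ m in 𝓝[>] m₀, g m = F (c m)) ∧
  ∀ (V : Type) (_ : NormedAddCommGroup V) (_ : NormedSpace ℝ V) (F : V → ℝ) (S : Set V),
    RealAnOn F S → PwAnOn F S

end Pool.Agent.Q61.BS
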