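import Pool.Agent.Q61.BS.Fin
import Pool.Agent.Q16.BS_REC
import Pool.Agent.Q16.BS_AGR
import Pool.Agent.Q16.BS_SEP
import Pool.Agent.Q16.BS_LIM
import Pool.Agent.Q265.BS_HGT
import Pool.Agent.Q295.BS_MEA
import Pool.Agent.Q295.BS_CNT
import Pool.Agent.Q13.BS.MDP
import Pool.Agent.Q13.BS.HLS
import Pool.Agent.Q177.BS_LOW
import Pool.Agent.Q130.BS_TCT
import Pool.Agent.Q181.BS_INF
import Pool.Agent.Q129.BS_DIA
import Pool.Agent.Q18.BS_COV
import Pool.Agent.Q254.BS.PhiXze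
import Pool.Agent.Q192.BS_DER
import Pool.Agent.Q121.BS_PTH
import Pool.Agent.Q121.BS_PWA
import Pool.Agent.Q295.BS_EST
import Pool.Agent.Q208.BS_SUM
import Pool.Agent.Q13.BS.UPP
import Pool.Agent.Q91.BS.TOP
import Pool.Agent.Q91.BS.SNG

/-!
# Project BS: assembly
-/

set_option autoImplicit false

open MeasureTheory Set Filter Topology Real

noncomputable section

namespace Pool.Agent.Q61.BS

theorem all :
    (¬ RealAnOn (HD E0) (Bar 2 (fun _ => Fin 4)) ∧ ¬ PwAnOn (HD E0) (Bar 2 (fun _ => Fin 4))) ∧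
    (¬ RealAnOn (HD E0) (SBar 2 (fun _ => Fin 4)) ∧ ¬ PwAnOn (HD E0) (SBar 2 (fun _ => Fin 4))) := by
  have hrec : S_rec := Pool.Agent.Q16.BS_REC.rec1
  have hagr : S_agr := Pool.Agent.Q16.BS_AGR.agr hrec
  have hsep : S_sep := Pool.Agent.Q16.BS_SEP.sep hrec
  have hlim : S_lim := Pool.Agent.Q16.BS_LIM.lim1 hrec
  have hhgt : S_hgt := Pool.Agent.Q265.BS.hgt1
  have hmmn : S_mmn := Pool.Agent.Q265.BS.mmn
  have hest : S_est := Pool.Agent.Q295.BS_EST.est hhgt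
  have hlow : S_low := Pool.Agent.Q177.BS.low Pool.Agent.Q295.BS_MEA.mea Pool.Agent.Q13.BS.mdp
    hest hsep
  have htct : S_tct := Pool.Agent.Q130.BS.tct Pool.Agent.Q295.BS_CNT.cnt hmmn hhgt
  have hinf : S_inf := Pool.Agent.Q181.BS_INF.inf1 hmmn hhgt
  have hdia : S_dia := Pool.Agent.Q129.BS.dia hagr hmmn hhgt hrec
  have hcov : S_cov := Pool.Agent.Q18.BS_COV.cov hmmn hhgt
  have hsum : S_sum := Pool.Agent.Q208.BS.sum1 htct hmmn
  have hupp : S_upp := Pool.Agent.Q13.BS.upp hinf Pool.Agent.Q13.BS.hls hdia hcov hsum hmmn hhgt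
  have hphi : S_phi := Pool.Agent.Q254.BS.phi1
  have hxze : S_xze := Pool.Agent.Q254.BS.xze
  have htop : S_top := Pool.Agent.Q91.BS.top1 Pool.Agent.Q192.BS.der hxze
  have hsng : S_sng := Pool.Agent.Q91.BS.sng htop hxze
  exact fin hlim hlow hupp hphi hxze hsng (Pool.Agent.Q121.BS.pth hphi) Pool.Agent.Q121.BS.pwa

end Pool.Agent.Q61.BS
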