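import Mathlib

/-!
# Project BS: Barański sponges, definitions (MP_0b6f3a_an)
-/

set_option autoImplicit false

open MeasureTheory Set Filter Topology Real

noncomputable section

namespace Pool.Agent.Q61.BS

/-! ### The objects of the problem -/

/-- A parameter: for each coordinate `i` and each digit `a ∈ A_i` the pair `(r_{i,a}, t_{i,a})`. -/
abbrev Par (d : ℕ) (A : Fin d → Type) := (i : Fin d) → A i → ℝ × ℝ

/-- The similarity `φ_{i,a}(x) = r_{i,a} x + t_{i,a}` of the line. -/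
def phi {d : ℕ} {A : Fin d → Type} (l : Par d A) (i : Fin d) (a : A i) (x : ℝ) : ℝ :=
  (l i a).1 * x + (l i a).2

/-- All `φ_{i,a}` are contracting similarities of `[0,1]`. -/
def IsPar {d : ℕ} {A : Fin d → Type} (l : Par d A) : Prop :=
  ∀ (i : Fin d) (a : A i), 0 < |(l i a).1| ∧ |(l i a).1| < 1 ∧
    phi l i a '' Icc (0 : ℝ) 1 ⊆ Icc (0 : ℝ) 1

/-- The set `𝓑` of the Barański parameters. -/
def Bar (d : ℕ) (A : Fin d → Type) : Set (Par d A) :=
  {l | IsPar l ∧ ∀ (i : Fin d) (a b : A i), a ≠ b →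
    Disjoint (phi l i a '' Ioo (0 : ℝ) 1) (phi l i b '' Ioo (0 : ℝ) 1)}

/-- The set `𝓑_s` of the strongly Barański parameters. -/
def SBar (d : ℕ) (A : Fin d → Type) : Set (Par d A) :=
  {l | IsPar l ∧ ∀ (i : Fin d) (a b : A i), a ≠ b →
    Disjoint (phi l i a '' Icc (0 : ℝ) 1) (phi l i b '' Icc (0 : ℝ) 1)}

/-- The diagonal map `φ_𝐚(x) = (φ_{1,a_1}(x_1), …, φ_{d,a_d}(x_d))` of `ℝ^d`. -/
def phiV {d : ℕ} {A : Fin d → Type} (l : Par d A) (a : (i : Fin d) → A i)
    (x : EuclideanSpace ℝ (Fin d)) : EuclideanSpace ℝ (Fin d) :=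
  WithLp.toLp 2 (fun i => phi l i (a i) (x i))

/-- `φ_{ω_0} ∘ ⋯ ∘ φ_{ω_{n-1}}`. -/
def comp {d : ℕ} {A : Fin d → Type} (l : Par d A) (ω : ℕ → (i : Fin d) → A i) :
    ℕ → EuclideanSpace ℝ (Fin d) → EuclideanSpace ℝ (Fin d)
  | 0, x => x
  | n + 1, x => comp l ω n (phiV l (ω n) x)

/-- The limit set `Λ_Φ` of the diagonal IFS with index set `E`. -/
def Lam {d : ℕ} {A : Fin d → Type} (E : Set ((i : Fin d) → A i)) (l : Par d A) :
    Set (EuclideanSpace ℝ (Fin d)) :=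
  {x | ∃ ω : ℕ → (i : Fin d) → A i, (∀ n, ω n ∈ E) ∧
    Tendsto (fun n => comp l ω n 0) atTop (𝓝 x)}

/-- The Hausdorff dimension of the limit set. -/
def HD {d : ℕ} {A : Fin d → Type} (E : Set ((i : Fin d) → A i)) (l : Par d A) : ℝ :=
  (dimH (Lam E l)).toReal

/-- `F` is real-analytic on the set `S`: each point of `S` has a neighbourhood `U` and a
real-analytic `G` on `U` with `F = G` on `S ∩ U`. -/
def RealAnOn {V : Type} [NormedAddCommGroup V] [NormedSpace ℝ V] (F : V → ℝ) (S : Set V) : Prop :=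
  ∀ x ∈ S, ∃ U ∈ 𝓝 x, ∃ G : V → ℝ, AnalyticOnNhd ℝ G U ∧ ∀ y ∈ S ∩ U, F y = G y

/-- `F` is piecewise real-analytic on `S`: `S` is covered by a locally finite family of relatively
closed sets, each the closure of its relative interior, with `F` real-analytic on each of them
(topological notions are taken in the subspace `S`). -/
def PwAnOn {V : Type} [NormedAddCommGroup V] [NormedSpace ℝ V] (F : V → ℝ) (S : Set V) : Prop :=
  ∃ (ι : Type) (P : ι → Set S), LocallyFinite P ∧ (⋃ i, P i) = univ ∧ (∀ i, IsClosed (P i)) ∧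
    (∀ i, closure (interior (P i)) = P i) ∧ ∀ i, RealAnOn F ((↑) '' (P i) : Set V)

/-! ### The family of sponges that we use: `d = 2`, digits `Fin 4` in both coordinates -/

/-- The index set `E = {(0,0), (1,1), (1,2), (1,3)}`. -/
def E0 : Set ((i : Fin 2) → (fun _ : Fin 2 => Fin 4) i) :=
  {![0, 0], ![1, 1], ![1, 2], ![1, 3]}

/-- The digit pair of the symbol `j`: `(0,0)` for `j = 0`, and `(1,j)` for `j ≠ 0`. -/
def em (j : Fin 4) : (i : Fin 2) → (fun _ : Fin 2 => Fin 4) i :=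
  ![if j = 0 then 0 else 1, j]

/-- The heights: `e^{-β₁}` for the symbol `0`, `e^{-β₂}` for the symbols `1, 2, 3`. -/
def bb (β₁ β₂ : ℝ) (j : Fin 4) : ℝ := if j = 0 then exp (-β₁) else exp (-β₂)

/-- The parameter: in coordinate `0` the maps `x ↦ x/5 + a/4`, in coordinate `1` the maps
`y ↦ bb a · y + a/4`. -/
def par (β₁ β₂ : ℝ) : Par 2 (fun _ => Fin 4) :=
  fun i a => if i = 0 then (1 / 5, ((a : ℕ) : ℝ) / 4) else (bb β₁ β₂ a, ((a : ℕ) : ℝ) / 4)

/-! ### Symbolic coding -/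

/-- The shift. -/
def sh (ω : ℕ → Fin 4) : ℕ → Fin 4 := fun n => ω (n + 1)

/-- The height of the cylinder of the first `n` symbols. -/
def hgt (β₁ β₂ : ℝ) (ω : ℕ → Fin 4) (n : ℕ) : ℝ := ∏ k ∈ Finset.range n, bb β₁ β₂ (ω k)

/-- The column of the symbol `j`, as a real number: `0` for `j = 0`, `1` for `j ≠ 0`. -/
def cl (j : Fin 4) : ℝ := if j = 0 then 0 else 1

/-- The first coordinate of the point with the code `ω`. -/
def XX (ω : ℕ → Fin 4) : ℝ := ∑' n, (1 / 5 : ℝ) ^ n * (cl (ω n) / 4)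

/-- The second coordinate of the point with the code `ω`. -/
def YY (β₁ β₂ : ℝ) (ω : ℕ → Fin 4) : ℝ := ∑' n, hgt β₁ β₂ ω n * (((ω n : ℕ) : ℝ) / 4)

/-- The point with the code `ω`. -/
def pt (β₁ β₂ : ℝ) (ω : ℕ → Fin 4) : ℝ × ℝ := (XX ω, YY β₁ β₂ ω)

/-- The number of the symbols `0` among the first `n` symbols. -/
def zc (ω : ℕ → Fin 4) (n : ℕ) : ℕ := ((Finset.range n).filter (fun k => ω k = 0)).card

/-- `-log` of the height of a cylinder of length `n` with `i` symbols `0`. -/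
def sc (β₁ β₂ : ℝ) (n i : ℕ) : ℝ := i * β₁ + ((n : ℝ) - i) * β₂

/-- The number of columns of the approximate square: the largest `m` with `m log 5 ≤ sc`. -/
def mm (β₁ β₂ : ℝ) (n i : ℕ) : ℕ := ⌊sc β₁ β₂ n i / log 5⌋₊

/-- The dimension of the Bernoulli measure with probability `x` for the symbol `0` and
`(1-x)/3` for each of the symbols `1, 2, 3`. -/
def FF (β₁ β₂ x : ℝ) : ℝ :=
  binEntropy x / log 5 + (1 - x) * log 3 / (x * β₁ + (1 - x) * β₂)

/-- The dimension of the sponge. -/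
def DD (β₁ β₂ : ℝ) : ℝ := sSup (FF β₁ β₂ '' Icc (0 : ℝ) 1)

/-! ### The function of one variable -/

/-- `w(x) = (1-x)/(1+κx)`. -/
def ww (κ x : ℝ) : ℝ := (1 - x) / (1 + κ * x)

/-- `Φ(m) = max_{x ∈ [0,1]} (H(x) + m w(x))`. -/
def Phi (κ m : ℝ) : ℝ := sSup ((fun x => binEntropy x + m * ww κ x) '' Icc (0 : ℝ) 1)

/-- The two constants as functions of `x₀`. -/
def kap (x : ℝ) : ℝ := (1 - 2 * x) / (x * (2 - x))
/-- The second constant. -/
def mz (x : ℝ) : ℝ := 27 * x * (1 - x) / (2 * (1 - 2 * x) * (2 - x) * (1 + x))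

/-- `-log` of the height of the symbols `1, 2, 3`. -/
def be2 (m : ℝ) : ℝ := log 5 * log 3 / m

end Pool.Agent.Q61.BS
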