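import Pool.Agent.Q61.BS.Stm

/-!
# Project BS: the last step, under the hypotheses `S_…`
-/

set_option autoImplicit false

open MeasureTheory Set Filter Topology Real

noncomputable section

namespace Pool.Agent.Q61.BS

lemma hd_eq (h1 : S_lim) (h2 : S_low) (h3 : S_upp) {β₁ β₂ : ℝ} (a : log 5 < β₁) (b : log 5 < β₂) :
    HD E0 (par β₁ β₂) = DD β₁ β₂ := by
  unfold HD
  rw [h1 β₁ β₂ a.le b.le]
  set d := dimH (range (pt β₁ β₂)) with hd
  have hu : d ≤ ENNReal.ofReal (DD β₁ β₂) := h3 β₁ β₂ a b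
  have hfin : d ≠ ⊤ := ne_top_of_le_ne_top ENNReal.ofReal_ne_top hu
  have hl : ∀ x ∈ Icc (0 : ℝ) 1, FF β₁ β₂ x ≤ d.toReal := fun x hx =>
    (ENNReal.ofReal_le_iff_le_toReal hfin).1 (h2 β₁ β₂ a b x hx)
  have hle : DD β₁ β₂ ≤ d.toReal := by
    refine csSup_le ((nonempty_Icc.2 zero_le_one).image _) ?_
    rintro _ ⟨x, hx, rfl⟩
    exact hl x hx
  have hb : 0 < β₂ := lt_trans (log_pos (by norm_num)) b
  have hpos : 0 < FF β₁ β₂ 0 := by
    have : 0 < log 3 / β₂ := div_pos (log_pos (by norm_num)) hb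
    simpa [FF] using this
  have hD : 0 ≤ DD β₁ β₂ := by
    by_contra hc
    rw [ENNReal.ofReal_of_nonpos (not_le.1 hc).le] at hu
    have h0 : d = 0 := le_antisymm hu bot_le
    have := hl 0 (by simp)
    rw [h0, ENNReal.toReal_zero] at this
    linarith
  refine le_antisymm ?_ hle
  have := ENNReal.toReal_mono ENNReal.ofReal_ne_top hu
  rwa [ENNReal.toReal_ofReal hD] at this

theorem fin (h1 : S_lim) (h2 : S_low) (h3 : S_upp) (h4 : S_phi) (h5 : S_xze) (h6 : S_sng)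
    (h7 : S_pth) (h8 : S_pwa) :
    (¬ RealAnOn (HD E0) (Bar 2 (fun _ => Fin 4)) ∧ ¬ PwAnOn (HD E0) (Bar 2 (fun _ => Fin 4))) ∧
    (¬ RealAnOn (HD E0) (SBar 2 (fun _ => Fin 4)) ∧ ¬ PwAnOn (HD E0) (SBar 2 (fun _ => Fin 4))) := by
  obtain ⟨⟨x₀, hx₀, he⟩, hc, hl3⟩ := h5
  obtain ⟨hk, hm0, hm1⟩ := hc x₀ hx₀
  have hm3 : mz x₀ < log 3 := hm1.trans hl3
  have key : ∀ S : Set (Par 2 (fun _ => Fin 4)), SBar 2 (fun _ => Fin 4) ⊆ S →
      ¬ PwAnOn (HD E0) S := by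
    intro S hS hp
    have hev : ∀ᶠ m in 𝓝[>] (mz x₀), 0 < m ∧ m < log 3 := by
      have : ∀ᶠ m in 𝓝 (mz x₀), 0 < m ∧ m < log 3 :=
        (eventually_gt_nhds hm0).and (eventually_lt_nhds hm3)
      exact this.filter_mono nhdsWithin_le_nhds
    have hval : ∀ m : ℝ, 0 < m → m < log 3 →
        HD E0 (par ((1 + kap x₀) * be2 m) (be2 m)) = Phi (kap x₀) m / log 5 := by
      intro m a b
      obtain ⟨p, q, r⟩ := h4 (kap x₀) m hk a b
      rw [hd_eq h1 h2 h3 p q, r]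
    obtain ⟨g, hg, hg0, hgf⟩ := h8.1 (Par 2 (fun _ => Fin 4)) inferInstance inferInstance
      (HD E0) S (fun m => par ((1 + kap x₀) * be2 m) (be2 m)) (mz x₀) hp
      (h7.1 (kap x₀) (mz x₀) hk hm0) (hS (h7.2.1 (kap x₀) (mz x₀) hk hm0 hm3))
      (hev.mono fun m hm => hS (h7.2.1 (kap x₀) m hk hm.1 hm.2))
    refine h6 x₀ hx₀ he ⟨g, hg, ?_, ?_⟩
    · rw [hg0, hval _ hm0 hm3]
    · refine (hgf.and_eventually hev).mono ?_
      rintro m ⟨e1, e2⟩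
      rw [e1, hval m e2.1 e2.2]
  have hB : ¬ PwAnOn (HD E0) (Bar 2 (fun _ => Fin 4)) := key _ h7.2.2
  have hS : ¬ PwAnOn (HD E0) (SBar 2 (fun _ => Fin 4)) := key _ Subset.rfl
  exact ⟨⟨fun h => hB (h8.2 _ inferInstance inferInstance _ _ h), hB⟩,
    ⟨fun h => hS (h8.2 _ inferInstance inferInstance _ _ h), hS⟩⟩

end Pool.Agent.Q61.BS
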